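import Pool.Agent.T2H80.StableCore

open Finset

set_option linter.unusedSectionVars false

namespace Pool.Agent.T2H80.Stable

variable {V : Type*} [Fintype V] [DecidableEq V]

/-- the tight set property. -/
structure Q (H : SimpleGraph V) (A : Finset V) (a b : V) (Z : Finset V) : Prop where
  disj : Disjoint Z A
  ind : Ind H Z
  zero : f H A Z = 0
  mem : b ∈ Z
  adj : H.Adj a b
  uniq : ∀ b' ∈ Z, H.Adj a b' → b' = b

/-- Tight sets exist for edges of an edge-minimal graph. -/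
lemma exists_Q {H : SimpleGraph V} {A : Finset V} (hA : Ind H A)
    (bd : ∀ I, Ind H I → I.card ≤ A.card)
    (hmin : ∀ H' : SimpleGraph V, H' < H → ∃ I, Ind H' I ∧ A.card < I.card)
    {a b : V} (ha : a ∈ A) (hab : H.Adj a b) : ∃ Z, Q H A a b Z := by
  have hbA : b ∉ A := fun hb => hA a ha b hb hab
  have hlt : H.deleteEdges {s(a, b)} < H := by
    refine lt_of_le_of_ne (SimpleGraph.deleteEdges_le _) ?_
    intro he
    have : (H.deleteEdges {s(a, b)}).Adj a b := by rw [he]; exact hab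
    rw [SimpleGraph.deleteEdges_adj] at this
    exact this.2 rfl
  obtain ⟨J, hJ, hJc⟩ := hmin _ hlt
  -- the only edge of `H` inside `J` is `ab`
  have honly : ∀ x ∈ J, ∀ y ∈ J, H.Adj x y → (x = a ∧ y = b) ∨ (x = b ∧ y = a) := by
    intro x hx y hy hxy
    by_contra hc
    apply hJ x hx y hy
    rw [SimpleGraph.deleteEdges_adj]
    refine ⟨hxy, ?_⟩
    intro h
    rw [Set.mem_singleton_iff, Sym2.eq_iff] at h
    exact hc h
  have hmem : a ∈ J ∧ b ∈ J := by
    by_contra hc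
    have : Ind H J := by
      intro x hx y hy hxy
      rcases honly x hx y hy hxy with ⟨rfl, rfl⟩ | ⟨rfl, rfl⟩
      · exact hc ⟨hx, hy⟩
      · exact hc ⟨hy, hx⟩
    have := bd J this
    omega
  have hne : a ≠ b := fun h => hbA (h ▸ ha)
  have hZind : Ind H (J \ A) := by
    intro x hx y hy hxy
    rw [mem_sdiff] at hx hy
    rcases honly x hx.1 y hy.1 hxy with ⟨rfl, rfl⟩ | ⟨rfl, rfl⟩
    · exact hx.2 ha
    · exact hy.2 ha
  have hdis : Disjoint (J \ A) A := disjoint_sdiff_self_left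
  have hle := f_nonpos hA bd hdis hZind
  have h2 : Disjoint ((J ∩ A).erase a) (nbA H A (J \ A)) := by
    rw [disjoint_left]
    intro x hx hy
    obtain ⟨hxA, z, hz, hxz⟩ := mem_nbA.1 hy
    rw [mem_erase] at hx
    rw [mem_sdiff] at hz
    rcases honly x (mem_of_mem_inter_left hx.2) z hz.1 hxz with ⟨rfl, -⟩ | ⟨rfl, -⟩
    · exact hx.1 rfl
    · exact hbA hxA
  have h3 : ((J ∩ A).erase a).card + (nbA H A (J \ A)).card ≤ A.card := by
    rw [← card_union_of_disjoint h2]
    exact card_le_card (union_subset ((erase_subset _ _).trans inter_subset_right) nbA_subset)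
  have h4 := card_sdiff_add_card_inter J A
  have h5 : ((J ∩ A).erase a).card + 1 = (J ∩ A).card :=
    card_erase_add_one (mem_inter.2 ⟨hmem.1, ha⟩)
  refine ⟨J \ A, hdis, hZind, ?_, mem_sdiff.2 ⟨hmem.2, hbA⟩, hab, ?_⟩
  · unfold f at hle ⊢
    omega
  · intro b' hb' hab'
    rw [mem_sdiff] at hb'
    rcases honly a hmem.1 b' hb'.1 hab' with ⟨-, h⟩ | ⟨h, -⟩
    · exact h
    · exact absurd h hne

/-- Lemma A. -/
lemma lemA {H : SimpleGraph V} {A T : Finset V} (hA : Ind H A)
    (bd : ∀ I, Ind H I → I.card ≤ A.card)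
    (hT : ∀ x y, H.Adj x y → x ∉ A → y ∉ A → x ∈ T ∧ y ∈ T)
    {a b a' b' : V} (haA : a ∈ A) (ha'A : a' ∈ A) (hne : a ≠ a') {Z Z' : Finset V}
    (hQ : Q H A a b Z) (hQ' : Q H A a' b' Z')
    (hmin' : ∀ Y, Q H A a' b' Y → Z'.card ≤ Y.card)
    (hZT : Z ∩ T = Z' ∩ T) (hN : a' ∈ nbA H A Z) : Z'.card < Z.card := by
  have hdU : Disjoint (Z ∪ Z') A := disjoint_union_left.2 ⟨hQ.disj, hQ'.disj⟩
  have hU : Ind H (Z ∪ Z') := by
    intro x hx y hy hxy
    have hxA : x ∉ A := fun h => disjoint_left.1 hdU hx h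
    have hyA : y ∉ A := fun h => disjoint_left.1 hdU hy h
    obtain ⟨hxT, hyT⟩ := hT x y hxy hxA hyA
    have key : ∀ w ∈ Z ∪ Z', w ∈ T → w ∈ Z := by
      intro w hw hwT
      rcases mem_union.1 hw with h | h
      · exact h
      · have : w ∈ Z' ∩ T := mem_inter.2 ⟨h, hwT⟩
        rw [← hZT] at this
        exact mem_of_mem_inter_left this
    exact hQ.ind x (key x hx hxT) y (key y hy hyT) hxy
  have hI : Ind H (Z ∩ Z') := hQ.ind.subset inter_subset_left
  have hdI : Disjoint (Z ∩ Z') A := hQ.disj.mono_left inter_subset_left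
  have h1 := f_nonpos hA bd hdU hU
  have h2 := f_nonpos hA bd hdI hI
  have h3 := f_union_inter H A Z Z'
  have h4 := hQ.zero
  have h5 := hQ'.zero
  have h6 : ((nbA H A Z ∩ nbA H A Z') \ nbA H A (Z ∩ Z')).card = 0 := by omega
  have h7 : f H A (Z ∩ Z') = 0 := by omega
  rw [card_eq_zero, sdiff_eq_empty_iff_subset] at h6
  have ha'N : a' ∈ nbA H A (Z ∩ Z') := by
    apply h6
    refine mem_inter.2 ⟨hN, mem_nbA.2 ⟨ha'A, b', hQ'.mem, hQ'.adj⟩⟩
  obtain ⟨-, z, hz, hz'⟩ := mem_nbA.1 ha'N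
  have hzb : z = b' := hQ'.uniq z (mem_of_mem_inter_right hz) hz'
  subst hzb
  have hQI : Q H A a' z (Z ∩ Z') :=
    ⟨hdI, hI, h7, hz, hQ'.adj, fun c hc h => hQ'.uniq c (mem_of_mem_inter_right hc) h⟩
  have hc1 := hmin' _ hQI
  have hsub : Z' ⊆ Z := by
    have : Z ∩ Z' = Z' := eq_of_subset_of_card_le inter_subset_right hc1
    rw [← this]
    exact inter_subset_left
  rcases lt_or_eq_of_le (card_le_card hsub) with h | h
  · exact h
  · exfalso
    have hEq : Z' = Z := eq_of_subset_of_card_le hsub (by omega)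
    subst hEq
    -- now `Z' = Z`
    have hE : Ind H (Z'.erase b) := hQ.ind.subset (erase_subset _ _)
    have hdE : Disjoint (Z'.erase b) A := hQ.disj.mono_left (erase_subset _ _)
    have h8 := f_nonpos hA bd hdE hE
    have h9 : (Z'.erase b).card + 1 = Z'.card := card_erase_add_one hQ.mem
    have haN : a ∉ nbA H A (Z'.erase b) := by
      intro h
      obtain ⟨-, w, hw, haw⟩ := mem_nbA.1 h
      rw [mem_erase] at hw
      exact hw.1 (hQ.uniq w hw.2 haw)
    have haN' : a ∈ nbA H A Z' := mem_nbA.2 ⟨haA, b, hQ.mem, hQ.adj⟩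
    have hsubE : nbA H A (Z'.erase b) ⊆ (nbA H A Z').erase a := by
      intro w hw
      rw [mem_erase]
      exact ⟨fun h => haN (h ▸ hw), nbA_mono (erase_subset _ _) hw⟩
    by_cases hbz : b = z
    · subst hbz
      have ha'N2 : a' ∉ nbA H A (Z'.erase b) := by
        intro h
        obtain ⟨-, w, hw, haw⟩ := mem_nbA.1 h
        rw [mem_erase] at hw
        exact hw.1 (hQ'.uniq w hw.2 haw)
      have hsubE2 : nbA H A (Z'.erase b) ⊆ ((nbA H A Z').erase a).erase a' := by
        intro w hw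
        rw [mem_erase]
        exact ⟨fun h => ha'N2 (h ▸ hw), hsubE hw⟩
      have h10 := card_le_card hsubE2
      have h11 : ((nbA H A Z').erase a).card + 1 = (nbA H A Z').card := card_erase_add_one haN'
      have h12 : (((nbA H A Z').erase a).erase a').card + 1 = ((nbA H A Z').erase a).card :=
        card_erase_add_one (mem_erase.2 ⟨hne.symm, hN⟩)
      unfold f at h4 h8
      omega
    · have h10 := card_le_card hsubE
      have h11 : ((nbA H A Z').erase a).card + 1 = (nbA H A Z').card := card_erase_add_one haN'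
      have h12 : f H A (Z'.erase b) = 0 := by
        unfold f at h4 h8 ⊢
        omega
      have hQE : Q H A a' z (Z'.erase b) :=
        ⟨hdE, hE, h12, mem_erase.2 ⟨fun h => hbz h.symm, hQ'.mem⟩, hQ'.adj,
          fun c hc h => hQ'.uniq c (mem_of_mem_erase hc) h⟩
      have := hmin' _ hQE
      omega

/-- The nullity-type function. -/
noncomputable def nul (H : SimpleGraph V) (A U : Finset V) : ℤ :=
  U.powerset.sup' ⟨∅, empty_mem_powerset U⟩ (f H A)

lemma le_nul {H : SimpleGraph V} {A U Y : Finset V} (h : Y ⊆ U) : f H A Y ≤ nul H A U :=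
  le_sup' (f H A) (mem_powerset.2 h)

lemma exists_nul (H : SimpleGraph V) (A U : Finset V) : ∃ Y, Y ⊆ U ∧ f H A Y = nul H A U := by
  obtain ⟨Y, hY, h⟩ := exists_mem_eq_sup' (s := U.powerset) ⟨∅, empty_mem_powerset U⟩ (f H A)
  exact ⟨Y, mem_powerset.1 hY, h.symm⟩

lemma nul_nonneg (H : SimpleGraph V) (A U : Finset V) : 0 ≤ nul H A U := by
  have := le_nul (H := H) (A := A) (empty_subset U)
  rwa [f_empty] at this

lemma nul_mono {H : SimpleGraph V} {A U U' : Finset V} (h : U ⊆ U') :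
    nul H A U ≤ nul H A U' := by
  obtain ⟨Y, hY, h'⟩ := exists_nul H A U
  rw [← h']
  exact le_nul (hY.trans h)

lemma nul_prop {H : SimpleGraph V} {A W U : Finset V} {b : V} (hWU : W ⊆ U)
    (h : nul H A (W.erase b) + 1 ≤ nul H A W) : nul H A (U.erase b) + 1 ≤ nul H A U := by
  obtain ⟨Y, hY, hY'⟩ := exists_nul H A (U.erase b)
  obtain ⟨X, hX, hX'⟩ := exists_nul H A W
  have h1 := f_super H A X Y
  have h2 : f H A (X ∩ Y) ≤ nul H A (W.erase b) := by
    apply le_nul
    intro z hz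
    rw [mem_inter] at hz
    rw [mem_erase]
    refine ⟨?_, hX hz.1⟩
    rintro rfl
    have := hY hz.2
    simp at this
  have h3 : f H A (X ∪ Y) ≤ nul H A U :=
    le_nul (union_subset (hX.trans hWU) (hY.trans (erase_subset _ _)))
  omega

/-- Lemma B. -/
lemma lemB {H : SimpleGraph V} {A : Finset V} (hA : Ind H A)
    (bd : ∀ I, Ind H I → I.card ≤ A.card)
    {a b₁ b₂ : V} (haA : a ∈ A) (hne : b₁ ≠ b₂) {Z₁ Z₂ : Finset V}
    (hQ₁ : Q H A a b₁ Z₁) (hQ₂ : Q H A a b₂ Z₂) :
    nul H A ((Z₁ ∪ Z₂).erase b₁) + 1 ≤ nul H A (Z₁ ∪ Z₂) := by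
  obtain ⟨Y, hY, hY'⟩ := exists_nul H A ((Z₁ ∪ Z₂).erase b₁)
  have hb₁Y : b₁ ∉ Y := by
    intro h
    have := hY h
    simp at this
  have hb₁Z₂ : b₁ ∉ Z₂ := fun h => hne (hQ₂.uniq b₁ h hQ₁.adj)
  have h1 := f_super H A Y Z₂
  have h2 : f H A (Y ∩ Z₂) ≤ 0 :=
    f_nonpos hA bd (hQ₂.disj.mono_left inter_subset_right) (hQ₂.ind.subset inter_subset_right)
  have h3 := f_union_inter H A (Y ∪ Z₂) Z₁
  have h4 : f H A ((Y ∪ Z₂) ∩ Z₁) ≤ 0 :=
    f_nonpos hA bd (hQ₁.disj.mono_left inter_subset_right) (hQ₁.ind.subset inter_subset_right)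
  have h5 : a ∈ (nbA H A (Y ∪ Z₂) ∩ nbA H A Z₁) \ nbA H A ((Y ∪ Z₂) ∩ Z₁) := by
    rw [mem_sdiff, mem_inter]
    refine ⟨⟨mem_nbA.2 ⟨haA, b₂, mem_union_right _ hQ₂.mem, hQ₂.adj⟩,
      mem_nbA.2 ⟨haA, b₁, hQ₁.mem, hQ₁.adj⟩⟩, ?_⟩
    intro h
    obtain ⟨-, w, hw, haw⟩ := mem_nbA.1 h
    rw [mem_inter, mem_union] at hw
    have := hQ₁.uniq w hw.2 haw
    subst this
    rcases hw.1 with h | h
    · exact hb₁Y h
    · exact hb₁Z₂ h
  have h6 : 1 ≤ ((nbA H A (Y ∪ Z₂) ∩ nbA H A Z₁) \ nbA H A ((Y ∪ Z₂) ∩ Z₁)).card :=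
    card_pos.2 ⟨a, h5⟩
  have h7 : f H A (Y ∪ Z₂ ∪ Z₁) ≤ nul H A (Z₁ ∪ Z₂) := by
    apply le_nul
    refine union_subset (union_subset (hY.trans (erase_subset _ _)) subset_union_right)
      subset_union_left
  have h8 := hQ₁.zero
  have h9 := hQ₂.zero
  omega

/-- Pigeonhole on three signs. -/
lemma three_signs (x y : Fin 3 → ℕ) (h : ∀ i, x i ≠ y i) :
    ∃ i j, i ≠ j ∧ ((x i < y i ∧ x j < y j) ∨ (y i < x i ∧ y j < x j)) := by
  have h0 := h 0
  have h1 := h 1
  have h2 := h 2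
  rcases lt_or_gt_of_ne h0 with a | a <;> rcases lt_or_gt_of_ne h1 with b | b <;>
    rcases lt_or_gt_of_ne h2 with c | c
  · exact ⟨0, 1, by decide, Or.inl ⟨a, b⟩⟩
  · exact ⟨0, 1, by decide, Or.inl ⟨a, b⟩⟩
  · exact ⟨0, 2, by decide, Or.inl ⟨a, c⟩⟩
  · exact ⟨1, 2, by decide, Or.inr ⟨b, c⟩⟩
  · exact ⟨1, 2, by decide, Or.inl ⟨b, c⟩⟩
  · exact ⟨0, 2, by decide, Or.inr ⟨a, c⟩⟩
  · exact ⟨0, 1, by decide, Or.inr ⟨a, b⟩⟩
  · exact ⟨0, 1, by decide, Or.inr ⟨a, b⟩⟩

/-- Counting: the maximum independent set is bounded. -/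
theorem card_A_le {G : SimpleGraph V} {A : Finset V} (C : Ctx G A) {δ : ℕ}
    (hδ : Fintype.card V ≤ 2 * A.card + δ) :
    A.card ≤ (2 ^ (2 ^ (δ + 1))) ^ 3 * ((δ + 1) ^ 3) ^ 3 := by
  classical
  -- the hitting set
  have hfδ : ∀ H : SimpleGraph V, H ≤ G → (∀ I, Ind H I → I.card ≤ A.card) →
      ∀ Z, Disjoint Z A → f H A Z ≤ δ := by
    intro H hHG bd Z hZ
    have := f_le C hHG bd hZ
    omega
  obtain ⟨T, hTU, hTc, hT⟩ := exists_T C δ Aᶜ disjoint_compl_left
    (fun Z hZ => hfδ G le_rfl C.bd Z (disjoint_of_subset_left hZ disjoint_compl_left))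
  -- a minimal graph
  obtain ⟨H, hH0, hHmin⟩ := exists_minimal_le_of_wellFoundedLT
    (fun H : SimpleGraph V => ∀ I, Ind H I → I.card ≤ A.card) (H₀ G A T) (H₀_bd C hT)
  have bd : ∀ I, Ind H I → I.card ≤ A.card := hHmin.prop
  have hHG : H ≤ G := fun x y h => (hH0 h).1
  have hA : Ind H A := C.ind.mono hHG
  have hmin : ∀ H' : SimpleGraph V, H' < H → ∃ I, Ind H' I ∧ A.card < I.card := by
    intro H' hH'
    by_contra hc
    push Not at hc
    exact hHmin.not_lt hc hH'
  have hTT : ∀ x y, H.Adj x y → x ∉ A → y ∉ A → x ∈ T ∧ y ∈ T := by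
    intro x y h hx hy
    rcases (hH0 h).2 with h | h | h
    · exact absurd h hx
    · exact absurd h hy
    · exact h
  -- minimal tight sets
  have hZex : ∀ a b, a ∈ A → H.Adj a b → ∃ Z, Q H A a b Z ∧ ∀ Y, Q H A a b Y → Z.card ≤ Y.card := by
    intro a b ha hab
    obtain ⟨Z, hZ⟩ := exists_Q hA bd hmin ha hab
    have hne : (univ.filter (fun Z => Q H A a b Z)).Nonempty := ⟨Z, by simpa using hZ⟩
    obtain ⟨Y, hY, hY'⟩ := exists_min_image _ (fun Z : Finset V => Z.card) hne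
    refine ⟨Y, by simpa using hY, fun X hX => hY' X (by simpa using hX)⟩
  -- three neighbours
  choose b hbinj hbadj using three_nbrs C hHG bd
  have hZex' : ∀ a : V, ∀ i : Fin 3, ∃ Z, a ∈ A →
      (Q H A a (b a i) Z ∧ ∀ Y, Q H A a (b a i) Y → Z.card ≤ Y.card) := by
    intro a i
    by_cases ha : a ∈ A
    · obtain ⟨Z, hZ⟩ := hZex a (b a i) ha (hbadj a i)
      exact ⟨Z, fun _ => hZ⟩
    · exact ⟨∅, fun h => absurd h ha⟩
  choose Z hZ using hZex'
  -- keys
  let e : V ≃ Fin (Fintype.card V) := Fintype.equivFin V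
  let key : Fin 3 → V → ℕ := fun i a => (Z a i).card * Fintype.card V + (e a : ℕ)
  have hkey_inj : ∀ i a a', key i a = key i a' → a = a' := by
    intro i a a' h
    have h1 : (key i a) % Fintype.card V = (e a : ℕ) := by
      simp only [key]
      rw [Nat.mul_add_mod', Nat.mod_eq_of_lt (e a).2]
    have h2 : (key i a') % Fintype.card V = (e a' : ℕ) := by
      simp only [key]
      rw [Nat.mul_add_mod', Nat.mod_eq_of_lt (e a').2]
    rw [h, h2] at h1
    exact (e.injective (Fin.ext h1.symm))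
  have hkey_lt : ∀ i a a', key i a < key i a' → (Z a i).card ≤ (Z a' i).card := by
    intro i a a' h
    by_contra hc
    push Not at hc
    have h1 : (Z a' i).card + 1 ≤ (Z a i).card := hc
    have h2 : ((Z a' i).card + 1) * Fintype.card V ≤ (Z a i).card * Fintype.card V :=
      Nat.mul_le_mul_right _ h1
    have h3 := (e a').2
    simp only [key] at h
    rw [add_mul, one_mul] at h2
    omega
  let τ : V → Fin 3 → Finset V := fun a i => Z a i ∩ T
  let R : Fin 3 → Fin 3 → V → Finset V := fun i j a =>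
    A.filter (fun a' => τ a' = τ a ∧ key i a' ≤ key i a ∧ key j a' ≤ key j a)
  let U : Fin 3 → Fin 3 → V → Finset V := fun i j a => (R i j a).biUnion (fun a' => Z a' i ∪ Z a' j)
  have hUA : ∀ i j a, Disjoint (U i j a) A := by
    intro i j a
    rw [disjoint_left]
    intro x hx hxA
    simp only [U, R, mem_biUnion, mem_filter, mem_union] at hx
    obtain ⟨a', ⟨ha', -⟩, hx | hx⟩ := hx
    · exact disjoint_left.1 (hZ a' i ha').1.disj hx hxA
    · exact disjoint_left.1 (hZ a' j ha').1.disj hx hxA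
  have hmain : ∀ i j a a', i ≠ j → a ∈ A → a' ∈ A → τ a' = τ a → key i a' < key i a →
      key j a' < key j a → nul H A (U i j a') < nul H A (U i j a) := by
    intro i j a a' hij ha ha' hτ hi hj
    have hWU : Z a i ∪ Z a j ⊆ U i j a := by
      intro x hx
      simp only [U, R, mem_biUnion, mem_filter]
      exact ⟨a, ⟨ha, rfl, le_rfl, le_rfl⟩, hx⟩
    have hB := nul_prop hWU (lemB hA bd ha (fun h => hij (hbinj a h)) (hZ a i ha).1 (hZ a j ha).1)
    have hsub : U i j a' ⊆ (U i j a).erase (b a i) := by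
      intro x hx
      simp only [U, R, mem_biUnion, mem_filter] at hx
      obtain ⟨c, ⟨hcA, hcτ, hci, hcj⟩, hx⟩ := hx
      have hcτ' : τ c = τ a := hcτ.trans hτ
      rw [mem_erase]
      refine ⟨?_, ?_⟩
      · rintro rfl
        have hca : c ≠ a := by
          rintro rfl
          omega
        rw [mem_union] at hx
        rcases hx with hx | hx
        · have h1 : (Z a i).card < (Z c i).card :=
            lemA hA bd hTT hcA ha hca (hZ c i hcA).1 (hZ a i ha).1 (hZ a i ha).2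
              (congrFun hcτ' i) (mem_nbA.2 ⟨ha, b a i, hx, hbadj a i⟩)
          have h2 := hkey_lt i c a (lt_of_le_of_lt hci hi)
          omega
        · have h1 : (Z a j).card < (Z c j).card :=
            lemA hA bd hTT hcA ha hca (hZ c j hcA).1 (hZ a j ha).1 (hZ a j ha).2
              (congrFun hcτ' j) (mem_nbA.2 ⟨ha, b a i, hx, hbadj a i⟩)
          have h2 := hkey_lt j c a (lt_of_le_of_lt hcj hj)
          omega
      · simp only [U, R, mem_biUnion, mem_filter]
        exact ⟨c, ⟨hcA, hcτ', by omega, by omega⟩, hx⟩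
    have := nul_mono (H := H) (A := A) hsub
    omega
  -- the injection
  let Φ : V → (Fin 3 → Finset V) × (Fin 3 → Fin 3 → ℕ) := fun a =>
    (τ a, fun i j => (nul H A (U i j a)).toNat)
  let D : Finset ((Fin 3 → Finset V) × (Fin 3 → Fin 3 → ℕ)) :=
    (Fintype.piFinset (fun _ => T.powerset)) ×ˢ
      (Fintype.piFinset (fun _ => Fintype.piFinset (fun _ => range (δ + 1))))
  have hΦD : ∀ a ∈ A, Φ a ∈ D := by
    intro a ha
    simp only [Φ, D, mem_product, Fintype.mem_piFinset, mem_powerset, mem_range]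
    refine ⟨fun i => inter_subset_right, fun i j => ?_⟩
    obtain ⟨Y, hY, hY'⟩ := exists_nul H A (U i j a)
    have h1 := hfδ H hHG bd Y (disjoint_of_subset_left hY (hUA i j a))
    have h2 := nul_nonneg H A (U i j a)
    omega
  have hΦinj : Set.InjOn Φ (A : Set V) := by
    intro a ha a' ha' h
    by_contra hne
    have hτ : τ a = τ a' := congrArg Prod.fst h
    have hc : ∀ i j, nul H A (U i j a) = nul H A (U i j a') := by
      intro i j
      have h1 : (nul H A (U i j a)).toNat = (nul H A (U i j a')).toNat :=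
        congrFun (congrFun (congrArg Prod.snd h) i) j
      have h2 := nul_nonneg H A (U i j a)
      have h3 := nul_nonneg H A (U i j a')
      omega
    obtain ⟨i, j, hij, hs⟩ := three_signs (fun i => key i a) (fun i => key i a')
      (fun i h => hne (hkey_inj i a a' h))
    rcases hs with ⟨h1, h2⟩ | ⟨h1, h2⟩
    · have := hmain i j a' a hij ha' ha hτ h1 h2
      rw [hc i j] at this
      exact lt_irrefl _ this
    · have := hmain i j a a' hij ha ha' hτ.symm h1 h2
      rw [hc i j] at this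
      exact lt_irrefl _ this
  have hcard := card_le_card_of_injOn Φ hΦD hΦinj
  refine hcard.trans ?_
  simp only [D, card_product, Fintype.card_piFinset, card_powerset, card_range, prod_const,
    card_univ, Fintype.card_fin]
  have hTle : T.card ≤ 2 ^ (δ + 1) := by omega
  gcongr
  norm_num

end Pool.Agent.T2H80.Stable
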