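import Mathlib

open Finset

namespace Pool.Agent.T2H80.Stable

variable {V : Type*} [Fintype V] [DecidableEq V]

/-- `Z` spans no edge of `H`. -/
def Ind (H : SimpleGraph V) (Z : Finset V) : Prop := ∀ x ∈ Z, ∀ y ∈ Z, ¬ H.Adj x y

/-- Neighbours in `A` of the set `Z`. -/
noncomputable def nbA (H : SimpleGraph V) (A Z : Finset V) : Finset V := by
  classical exact A.filter (fun a => ∃ z ∈ Z, H.Adj a z)

noncomputable def f (H : SimpleGraph V) (A Z : Finset V) : ℤ :=
  (Z.card : ℤ) - ((nbA H A Z).card : ℤ)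

lemma mem_nbA {H : SimpleGraph V} {A Z : Finset V} {a : V} :
    a ∈ nbA H A Z ↔ a ∈ A ∧ ∃ z ∈ Z, H.Adj a z := by
  classical
  simp [nbA]

lemma nbA_subset {H : SimpleGraph V} {A Z : Finset V} : nbA H A Z ⊆ A := by
  intro a ha
  exact (mem_nbA.1 ha).1

lemma nbA_union (H : SimpleGraph V) (A Z₁ Z₂ : Finset V) :
    nbA H A (Z₁ ∪ Z₂) = nbA H A Z₁ ∪ nbA H A Z₂ := by
  ext a
  simp only [mem_nbA, mem_union]
  constructor
  · rintro ⟨h, z, hz | hz, hh⟩
    · exact Or.inl ⟨h, z, hz, hh⟩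
    · exact Or.inr ⟨h, z, hz, hh⟩
  · rintro (⟨h, z, hz, hh⟩ | ⟨h, z, hz, hh⟩)
    · exact ⟨h, z, Or.inl hz, hh⟩
    · exact ⟨h, z, Or.inr hz, hh⟩

lemma nbA_mono {H : SimpleGraph V} {A Z₁ Z₂ : Finset V} (h : Z₁ ⊆ Z₂) :
    nbA H A Z₁ ⊆ nbA H A Z₂ := by
  intro a ha
  obtain ⟨h1, z, hz, hh⟩ := mem_nbA.1 ha
  exact mem_nbA.2 ⟨h1, z, h hz, hh⟩

lemma f_union_inter (H : SimpleGraph V) (A Z₁ Z₂ : Finset V) :
    f H A (Z₁ ∪ Z₂) + f H A (Z₁ ∩ Z₂) = f H A Z₁ + f H A Z₂ +
      (((nbA H A Z₁ ∩ nbA H A Z₂) \ nbA H A (Z₁ ∩ Z₂)).card : ℤ) := by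
  have h1 := card_union_add_card_inter Z₁ Z₂
  have h2 := card_union_add_card_inter (nbA H A Z₁) (nbA H A Z₂)
  have h3 : nbA H A (Z₁ ∩ Z₂) ⊆ nbA H A Z₁ ∩ nbA H A Z₂ :=
    subset_inter (nbA_mono inter_subset_left) (nbA_mono inter_subset_right)
  have h4 := card_sdiff_add_card_eq_card h3
  unfold f
  rw [nbA_union]
  omega

lemma f_super (H : SimpleGraph V) (A Z₁ Z₂ : Finset V) :
    f H A Z₁ + f H A Z₂ ≤ f H A (Z₁ ∪ Z₂) + f H A (Z₁ ∩ Z₂) := by
  have := f_union_inter H A Z₁ Z₂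
  omega

lemma f_empty (H : SimpleGraph V) (A : Finset V) : f H A ∅ = 0 := by
  have : nbA H A ∅ = ∅ := by
    ext a; simp [mem_nbA]
  simp [f, this]

/-- independent subsets of the complement have non-positive `f`. -/
lemma f_nonpos {H : SimpleGraph V} {A Z : Finset V} (hA : Ind H A)
    (bd : ∀ I, Ind H I → I.card ≤ A.card) (hd : Disjoint Z A) (hZ : Ind H Z) :
    f H A Z ≤ 0 := by
  have hI : Ind H ((A \ nbA H A Z) ∪ Z) := by
    intro x hx y hy hxy
    rw [mem_union, mem_sdiff] at hx hy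
    rcases hx with ⟨hx, hx'⟩ | hx <;> rcases hy with ⟨hy, hy'⟩ | hy
    · exact hA x hx y hy hxy
    · exact hx' (mem_nbA.2 ⟨hx, y, hy, hxy⟩)
    · exact hy' (mem_nbA.2 ⟨hy, x, hx, hxy.symm⟩)
    · exact hZ x hx y hy hxy
  have h1 := bd _ hI
  rw [card_union_of_disjoint] at h1
  · have h2 := card_sdiff_add_card_eq_card (nbA_subset (H := H) (A := A) (Z := Z))
    unfold f
    omega
  · exact (hd.symm.mono_left sdiff_subset)

/-- Context: `A` is a maximum independent set of the stable graph `G`. -/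
structure Ctx (G : SimpleGraph V) (A : Finset V) : Prop where
  ind : Ind G A
  bd : ∀ I, Ind G I → I.card ≤ A.card
  st : ∀ S : Finset V, S.card ≤ 3 → ∃ I : Finset V, Ind G I ∧ I.card = A.card ∧ Disjoint I S

lemma Ind.mono {G H : SimpleGraph V} (h : H ≤ G) {Z : Finset V} (hZ : Ind G Z) : Ind H Z :=
  fun x hx y hy hxy => hZ x hx y hy (h hxy)

lemma Ind.subset {H : SimpleGraph V} {Z Z' : Finset V} (hZ : Ind H Z) (h : Z' ⊆ Z) : Ind H Z' :=
  fun x hx y hy hxy => hZ x (h hx) y (h hy) hxy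

/-- Minimum degree at least three. -/
lemma three_nbrs {G H : SimpleGraph V} {A : Finset V} (C : Ctx G A) (hHG : H ≤ G)
    (bd : ∀ I, Ind H I → I.card ≤ A.card) (v : V) :
    ∃ b : Fin 3 → V, Function.Injective b ∧ ∀ i, H.Adj v (b i) := by
  classical
  by_contra hcon
  have hcard : (univ.filter (fun w => H.Adj v w)).card ≤ 2 := by
    by_contra h
    push Not at h
    have h3 : 3 ≤ (univ.filter (fun w => H.Adj v w)).card := h
    obtain ⟨t, ht, ht3⟩ := exists_subset_card_eq h3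
    have e := (Finset.equivFinOfCardEq ht3).symm
    apply hcon
    refine ⟨fun i => (e i : V), ?_, ?_⟩
    · intro i j hij
      exact e.injective (Subtype.ext hij)
    · intro i
      have := ht (e i).2
      simpa using this
  obtain ⟨I, hI, hIc, hId⟩ := C.st (insert v (univ.filter (fun w => H.Adj v w)))
    ((card_insert_le _ _).trans (by omega))
  have hvI : v ∉ I := by
    intro hv
    exact disjoint_left.1 hId hv (mem_insert_self _ _)
  have hnI : ∀ w ∈ I, ¬ H.Adj v w := by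
    intro w hw hvw
    exact disjoint_left.1 hId hw (mem_insert_of_mem (by simpa using hvw))
  have hJ : Ind H (insert v I) := by
    intro x hx y hy hxy
    rw [mem_insert] at hx hy
    rcases hx with rfl | hx <;> rcases hy with rfl | hy
    · exact H.loopless.irrefl _ hxy
    · exact hnI y hy hxy
    · exact hnI x hx hxy.symm
    · exact hI.mono hHG x hx y hy hxy
  have := bd _ hJ
  rw [card_insert_of_notMem hvI] at this
  omega

/-- Hall's condition for `A`. -/
lemma hall {G H : SimpleGraph V} {A : Finset V} (C : Ctx G A) (hHG : H ≤ G)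
    (bd : ∀ I, Ind H I → I.card ≤ A.card) :
    ∀ Y : Finset V, Y ⊆ A → Y.card ≤ (nbA H univ Y).card := by
  intro Y
  induction Y using Finset.strongInduction with
  | H Y ih =>
    intro hYA
    by_contra hcon
    push Not at hcon
    have hne : Y.Nonempty := by
      rw [nonempty_iff_ne_empty]
      rintro rfl
      simp at hcon
    obtain ⟨y, hy⟩ := hne
    obtain ⟨I, hI, hIc, hId⟩ := C.st {y} (by simp)
    have hyI : y ∉ I := fun h => disjoint_left.1 hId h (mem_singleton_self _)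
    have hIH : Ind H I := hI.mono hHG
    have hAH : Ind H A := C.ind.mono hHG
    -- the new set
    have hJ : Ind H ((I \ nbA H univ Y) ∪ Y) := by
      intro a ha b hb hab
      rw [mem_union, mem_sdiff] at ha hb
      rcases ha with ⟨ha, ha'⟩ | ha <;> rcases hb with ⟨hb, hb'⟩ | hb
      · exact hIH a ha b hb hab
      · exact ha' (mem_nbA.2 ⟨mem_univ _, b, hb, hab⟩)
      · exact hb' (mem_nbA.2 ⟨mem_univ _, a, ha, hab.symm⟩)
      · exact hAH a (hYA ha) b (hYA hb) hab
    have h1 := bd _ hJ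
    -- I ∩ Y is a proper subset
    have hss : I ∩ Y ⊂ Y := by
      refine ⟨inter_subset_right, fun h => hyI (mem_of_mem_inter_left (h hy))⟩
    have h2 := ih _ hss (hss.1.trans hYA)
    -- I ∩ N(Y) and N(I ∩ Y) are disjoint subsets of N(Y)
    have hdj : Disjoint (I ∩ nbA H univ Y) (nbA H univ (I ∩ Y)) := by
      rw [disjoint_left]
      intro a ha hb
      obtain ⟨-, z, hz, haz⟩ := mem_nbA.1 hb
      exact hIH a (mem_of_mem_inter_left ha) z (mem_of_mem_inter_left hz) haz
    have h3 : (I ∩ nbA H univ Y).card + (nbA H univ (I ∩ Y)).card ≤ (nbA H univ Y).card := by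
      rw [← card_union_of_disjoint hdj]
      exact card_le_card (union_subset inter_subset_right (nbA_mono inter_subset_right))
    -- size of the new set
    have hYN : Disjoint Y (nbA H univ Y) := by
      rw [disjoint_left]
      intro a ha hb
      obtain ⟨-, z, hz, haz⟩ := mem_nbA.1 hb
      exact hAH a (hYA ha) z (hYA hz) haz
    have h4 := card_union_add_card_inter (I \ nbA H univ Y) Y
    have h5 : (I \ nbA H univ Y) ∩ Y = I ∩ Y := by
      ext a
      simp only [mem_inter, mem_sdiff]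
      constructor
      · rintro ⟨⟨h, -⟩, h'⟩
        exact ⟨h, h'⟩
      · rintro ⟨h, h'⟩
        exact ⟨⟨h, fun hh => disjoint_left.1 hYN h' hh⟩, h'⟩
    rw [h5] at h4
    have h6 := card_sdiff_add_card_inter I (nbA H univ Y)
    omega

/-- `f ≤ |V| - 2|A|` on subsets of the complement of `A`. -/
lemma f_le {G H : SimpleGraph V} {A : Finset V} (C : Ctx G A) (hHG : H ≤ G)
    (bd : ∀ I, Ind H I → I.card ≤ A.card) {Z : Finset V} (hd : Disjoint Z A) :
    f H A Z ≤ (Fintype.card V : ℤ) - 2 * (A.card : ℤ) := by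
  have h1 := hall C hHG bd (A \ nbA H A Z) sdiff_subset
  have h2 := card_sdiff_add_card_eq_card (nbA_subset (H := H) (A := A) (Z := Z))
  have hAH : Ind H A := C.ind.mono hHG
  have h3 : Disjoint (nbA H univ (A \ nbA H A Z)) (A ∪ Z) := by
    rw [disjoint_left]
    intro a ha hb
    obtain ⟨-, z, hz, haz⟩ := mem_nbA.1 ha
    rw [mem_sdiff] at hz
    rw [mem_union] at hb
    rcases hb with hb | hb
    · exact hAH a hb z hz.1 haz
    · exact hz.2 (mem_nbA.2 ⟨hz.1, a, hb, haz.symm⟩)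
  have h4 : (nbA H univ (A \ nbA H A Z)).card + (A.card + Z.card) ≤ Fintype.card V := by
    rw [← card_union_of_disjoint hd.symm, ← card_union_of_disjoint h3]
    exact card_le_univ _
  unfold f
  omega

/-- Bounded set of vertices hitting all the positive sets. -/
lemma exists_T {G : SimpleGraph V} {A : Finset V} (C : Ctx G A) :
    ∀ (k : ℕ) (U : Finset V), Disjoint U A → (∀ Z ⊆ U, f G A Z ≤ k) →
      ∃ T : Finset V, T ⊆ U ∧ T.card + 2 ≤ 2 ^ (k + 1) ∧
        ∀ Z ⊆ U, 0 < f G A Z → ∃ u ∈ Z, ∃ v ∈ Z, u ∈ T ∧ v ∈ T ∧ G.Adj u v := by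
  intro k
  induction k with
  | zero =>
    intro U hU h
    refine ⟨∅, empty_subset _, by simp, ?_⟩
    intro Z hZ h0
    have := h Z hZ
    simp at this
    omega
  | succ k ih =>
    intro U hU h
    by_cases hpos : ∃ Z, Z ⊆ U ∧ 0 < f G A Z
    · -- minimal one
      obtain ⟨Z₀, hZ₀⟩ := exists_minimal_of_wellFoundedLT (fun Z => Z ⊆ U ∧ 0 < f G A Z) hpos
      obtain ⟨hZ₀U, hZ₀p⟩ := hZ₀.prop
      have hmin : ∀ Z, Z ⊂ Z₀ → f G A Z ≤ 0 := by
        intro Z hZ
        by_contra hc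
        push Not at hc
        have := hZ₀.le_of_le ⟨hZ.1.trans hZ₀U, hc⟩ hZ.1
        exact hZ.2 this
      have hnind : ¬ Ind G Z₀ := by
        intro hi
        have := f_nonpos C.ind C.bd (hU.mono_left hZ₀U) hi
        omega
      unfold Ind at hnind
      push Not at hnind
      obtain ⟨u, hu, v, hv, huv⟩ := hnind
      have key : ∀ w ∈ Z₀, ∀ Z ⊆ U.erase w, f G A Z ≤ k := by
        intro w hw Z hZ
        by_contra hc
        push Not at hc
        have h1 := f_super G A Z Z₀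
        have h2 : f G A (Z ∩ Z₀) ≤ 0 := by
          apply hmin
          refine ⟨inter_subset_right, fun hh => ?_⟩
          have := hZ (mem_of_mem_inter_left (hh hw))
          simp at this
        have h3 : f G A (Z ∪ Z₀) ≤ ((k + 1 : ℕ) : ℤ) :=
          h _ (union_subset (hZ.trans (erase_subset _ _)) hZ₀U)
        push_cast at h3
        omega
      obtain ⟨T₁, hT₁U, hT₁c, hT₁⟩ := ih (U.erase u) (hU.mono_left (erase_subset _ _)) (key u hu)
      obtain ⟨T₂, hT₂U, hT₂c, hT₂⟩ := ih (U.erase v) (hU.mono_left (erase_subset _ _)) (key v hv)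
      refine ⟨{u, v} ∪ (T₁ ∪ T₂), ?_, ?_, ?_⟩
      · refine union_subset ?_ (union_subset (hT₁U.trans (erase_subset _ _))
          (hT₂U.trans (erase_subset _ _)))
        intro x hx
        simp only [mem_insert, mem_singleton] at hx
        rcases hx with rfl | rfl
        · exact hZ₀U hu
        · exact hZ₀U hv
      · have h1 := card_union_le ({u, v} : Finset V) (T₁ ∪ T₂)
        have h2 := card_union_le T₁ T₂
        have h3 : ({u, v} : Finset V).card ≤ 2 := card_le_two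
        have h4 : 2 ^ (k + 1 + 1) = 2 ^ (k + 1) + 2 ^ (k + 1) := by ring
        omega
      · intro Z hZ hp
        by_cases huZ : u ∈ Z
        · by_cases hvZ : v ∈ Z
          · exact ⟨u, huZ, v, hvZ, by simp, by simp, huv⟩
          · obtain ⟨x, hx, y, hy, hxT, hyT, hxy⟩ := hT₂ Z (by
              intro z hz
              rw [mem_erase]
              exact ⟨fun h => hvZ (h ▸ hz), hZ hz⟩) hp
            exact ⟨x, hx, y, hy, by simp [hxT], by simp [hyT], hxy⟩
        · obtain ⟨x, hx, y, hy, hxT, hyT, hxy⟩ := hT₁ Z (by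
            intro z hz
            rw [mem_erase]
            exact ⟨fun h => huZ (h ▸ hz), hZ hz⟩) hp
          exact ⟨x, hx, y, hy, by simp [hxT], by simp [hyT], hxy⟩
    · refine ⟨∅, empty_subset _, ?_, ?_⟩
      · have : 1 ≤ 2 ^ (k + 1) := Nat.one_le_two_pow
        have h4 : 2 ^ (k + 1 + 1) = 2 ^ (k + 1) + 2 ^ (k + 1) := by ring
        simp
        omega
      · intro Z hZ h0
        exact absurd ⟨Z, hZ, h0⟩ hpos

/-- The sparsified graph. -/
def H₀ (G : SimpleGraph V) (A T : Finset V) : SimpleGraph V where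
  Adj x y := G.Adj x y ∧ (x ∈ A ∨ y ∈ A ∨ (x ∈ T ∧ y ∈ T))
  symm := ⟨fun x y h => ⟨h.1.symm, by tauto⟩⟩
  loopless := ⟨fun x h => G.loopless.irrefl x h.1⟩

lemma H₀_bd {G : SimpleGraph V} {A T : Finset V} (C : Ctx G A)
    (hT : ∀ Z ⊆ Aᶜ, 0 < f G A Z → ∃ u ∈ Z, ∃ v ∈ Z, u ∈ T ∧ v ∈ T ∧ G.Adj u v) :
    ∀ I, Ind (H₀ G A T) I → I.card ≤ A.card := by
  intro I hI
  have h1 : ¬ 0 < f G A (I \ A) := by
    intro hp
    obtain ⟨u, hu, v, hv, huT, hvT, huv⟩ := hT (I \ A) (by
      intro x hx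
      simp only [mem_sdiff, mem_compl] at *
      exact hx.2) hp
    exact hI u (mem_sdiff.1 hu).1 v (mem_sdiff.1 hv).1 ⟨huv, Or.inr (Or.inr ⟨huT, hvT⟩)⟩
  have h2 : Disjoint (I ∩ A) (nbA G A (I \ A)) := by
    rw [disjoint_left]
    intro a ha hb
    obtain ⟨haA, z, hz, haz⟩ := mem_nbA.1 hb
    exact hI a (mem_of_mem_inter_left ha) z (mem_sdiff.1 hz).1 ⟨haz, Or.inl haA⟩
  have h3 : (I ∩ A).card + (nbA G A (I \ A)).card ≤ A.card := by
    rw [← card_union_of_disjoint h2]
    exact card_le_card (union_subset inter_subset_right nbA_subset)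
  have h4 := card_sdiff_add_card_inter I A
  unfold f at h1
  omega

end Pool.Agent.T2H80.Stable
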